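import Pool.Agent.D0H73.OP.Stm

/-! Project OP (helper73), module NUM (helper46): the numbers. -/

set_option autoImplicit false

open Finset
open scoped BigOperators

namespace Pool.Agent.D0H46.OP

open Pool.Agent.D0H73.OP

noncomputable section

theorem w_pos (p : ℕ) (hp : 0 < p) : ∀ k, 0 < w p k ∧ w p k ≤ 1 := by
  intro k
  have hp1 : (1 : ℝ) ≤ p := by exact_mod_cast hp
  induction k with
  | zero => simp [w]
  | succ k ih =>
    obtain ⟨h1, h2⟩ := ih
    have h3 : w p (k + 1) = w p k ^ 2 / (1000 * p) := rfl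
    rw [h3]
    refine ⟨by positivity, ?_⟩
    rw [div_le_one (by positivity)]
    nlinarith

theorem w_succ_le (p : ℕ) (hp : 2 ≤ p) (k : ℕ) : w p (k + 1) ≤ w p k / 2000 := by
  have hp1 : (2 : ℝ) ≤ p := by exact_mod_cast hp
  obtain ⟨h1, h2⟩ := w_pos p (by omega) k
  have h3 : w p (k + 1) = w p k ^ 2 / (1000 * p) := rfl
  rw [h3, div_le_div_iff₀ (by positivity) (by norm_num)]
  nlinarith

theorem w_add_le (p : ℕ) (hp : 2 ≤ p) (k i : ℕ) : w p (i + k) ≤ w p k * (1 / 2) ^ i := by
  induction i with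
  | zero => simp
  | succ i ih =>
    have h1 := w_succ_le p hp (i + k)
    have h2 := (w_pos p (by omega) (i + k)).1
    have e1 : i + 1 + k = (i + k) + 1 := by omega
    rw [e1, pow_succ]
    nlinarith

theorem tau_pos (p : ℕ) (hp : 2 ≤ p) (k : ℕ) : 0 < tau p k ∧ tau p k ≤ 1 := by
  obtain ⟨h1, h2⟩ := w_pos p (by omega) (k + 1)
  have h4 : w p (k + 1) ^ 4 ≤ 1 := pow_le_one₀ h1.le h2
  unfold tau
  refine ⟨by positivity, ?_⟩
  rw [div_le_one (by positivity)]
  linarith [h4, (by norm_num : (1 : ℝ) ≤ 10 ^ 10)]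

theorem tau_succ_le (p : ℕ) (hp : 2 ≤ p) (k : ℕ) : tau p (k + 1) ≤ tau p k / 2 := by
  obtain ⟨h1, h2⟩ := w_pos p (by omega) (k + 1)
  obtain ⟨h3, h4⟩ := w_pos p (by omega) (k + 2)
  have h5 := w_succ_le p hp (k + 1)
  have h6 : w p (k + 2) ≤ w p (k + 1) / 2 := by linarith
  have h7 : w p (k + 2) ^ 4 ≤ (w p (k + 1) / 2) ^ 4 := pow_le_pow_left₀ h3.le h6 4
  have h8 : 0 ≤ w p (k + 1) ^ 4 := by positivity
  have h9 : (w p (k + 1) / 2) ^ 4 = w p (k + 1) ^ 4 / 16 := by ring
  unfold tau
  rw [show k + 1 + 1 = k + 2 from rfl]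
  have : (0:ℝ) < 10 ^ 10 := by norm_num
  rw [div_div, div_le_div_iff₀ (by positivity) (by positivity)]
  nlinarith

theorem tau_add_le (p : ℕ) (hp : 2 ≤ p) (k i : ℕ) : tau p (i + k) ≤ tau p k * (1 / 2) ^ i := by
  induction i with
  | zero => simp
  | succ i ih =>
    have h1 := tau_succ_le p hp (i + k)
    have e1 : i + 1 + k = (i + k) + 1 := by omega
    rw [e1, pow_succ]
    linarith

theorem geo_le (c : ℝ) (hc : 0 ≤ c) (n : ℕ) : ∑ i ∈ range n, c * (1 / 2 : ℝ) ^ i ≤ 2 * c := by
  rw [← mul_sum]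
  have h : ∑ i ∈ range n, (1 / 2 : ℝ) ^ i ≤ 2 := by
    have h1 := geom_sum_eq (x := (1 / 2 : ℝ)) (by norm_num) n
    rw [h1]
    have h2 : (0:ℝ) ≤ (1 / 2) ^ n := by positivity
    linarith [h2, (by ring : ((1 / 2 : ℝ) ^ n - 1) / (1 / 2 - 1) = 2 - 2 * (1 / 2) ^ n)]
  nlinarith

theorem t_NUM : S_NUM := by
  classical
  intro p hpF
  have hp : 2 ≤ p := hpF.out.two_le
  have hsum : Summable (w p) := by
    refine Summable.of_nonneg_of_le (fun k => (w_pos p (by omega) k).1.le)
      (fun k => ?_) (summable_geometric_two)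
    have := w_add_le p hp 0 k
    rw [add_zero] at this
    have h0 : w p 0 = 1 := rfl
    rwa [h0, one_mul] at this
  refine ⟨fun k => ⟨(w_pos p (by omega) k).1, (w_pos p (by omega) k).2, w_succ_le p hp k⟩,
    fun k => ⟨(tau_pos p hp k).1, (tau_pos p hp k).2, tau_succ_le p hp k⟩, ?_, ?_, hsum, ?_⟩
  · intro k n
    rw [sum_filter, Fin.sum_univ_eq_sum_range (fun i => if k ≤ i then tau p i else 0) n,
      ← sum_filter]
    have h1 : ∑ i ∈ (range n).filter (fun i => k ≤ i), tau p i ≤
        ∑ i ∈ (range n).filter (fun i => k ≤ i), tau p k * (1 / 2) ^ (i - k) := by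
      refine sum_le_sum (fun i hi => ?_)
      have h2 := tau_add_le p hp k (i - k)
      have h3 : k ≤ i := (mem_filter.mp hi).2
      rwa [Nat.sub_add_cancel h3] at h2
    refine h1.trans ?_
    have h2 : ∑ i ∈ (range n).filter (fun i => k ≤ i), tau p k * (1 / 2 : ℝ) ^ (i - k) ≤
        ∑ i ∈ range n, tau p k * (1 / 2 : ℝ) ^ i := by
      have hinj : Set.InjOn (fun i => i - k) (((range n).filter (fun i => k ≤ i) : Finset ℕ) : Set ℕ) := by
        intro i hi j hj hij
        have hi' := (mem_filter.mp (mem_coe.mp hi)).2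
        have hj' := (mem_filter.mp (mem_coe.mp hj)).2
        simp only at hij
        omega
      rw [← sum_image (f := fun i => tau p k * (1 / 2 : ℝ) ^ i) hinj]
      apply sum_le_sum_of_subset_of_nonneg
      · intro i hi
        rw [mem_image] at hi
        obtain ⟨j, hj, rfl⟩ := hi
        have := mem_range.mp (mem_filter.mp hj).1
        rw [mem_range]
        omega
      · intro i _ _
        have := (tau_pos p hp k).1
        positivity
    exact h2.trans (geo_le _ (tau_pos p hp k).1.le n)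
  · intro n
    rw [Fin.sum_univ_eq_sum_range (fun i => w p i) n]
    have h1 : ∑ i ∈ range n, w p i ≤ ∑ i ∈ range n, (1 : ℝ) * (1 / 2) ^ i := by
      refine sum_le_sum (fun i _ => ?_)
      have := w_add_le p hp 0 i
      rw [add_zero] at this
      exact this
    exact h1.trans ((geo_le 1 (by norm_num) n).trans (by norm_num))
  · intro k
    have hs : Summable (fun i => w p (i + k)) := (summable_nat_add_iff k).mpr hsum
    have hg : Summable (fun i : ℕ => w p k * (1 / 2 : ℝ) ^ i) :=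
      summable_geometric_two.mul_left _
    have h1 := hs.tsum_le_tsum (fun i => w_add_le p hp k i) hg
    rw [tsum_mul_left, tsum_geometric_two] at h1
    linarith

end

end Pool.Agent.D0H46.OP
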